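import Pool.Agent.N353.PT.Stm

/-!
# Project PT: the assembly of the partition
-/

set_option autoImplicit false
set_option linter.all false

open Finset
open scoped Classical

namespace Pool.Agent.N353.PT.Asm

open Pool.Agent.N353.PT

section rank

variable {V : Type}

/-- the good vertices of `W` with an edge to `v` -/
noncomputable def gd (S : V → V → Prop) (D E W : Finset V) (v : V) : Finset V :=
  W.filter fun u => S u v ∧ u ∉ D ∧ u ∉ E

/-- the rank function -/
noncomputable def rk (S : V → V → Prop) (D E W : Finset V) (k : ℕ) (v : V) : ℕ :=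
  if v ∈ D then 2 else if v ∉ E then 0 else if k ≤ (gd S D E W v).card then 1 else 3

variable {S : V → V → Prop} {D E W : Finset V} {k : ℕ}

theorem rk_zero {v : V} (h : rk S D E W k v = 0) : v ∉ D ∧ v ∉ E := by
  unfold rk at h
  split_ifs at h with h1 h2
  exact ⟨h1, h2⟩

theorem rk_D {v : V} (h : v ∈ D) : rk S D E W k v = 2 := if_pos h

theorem rk_good {v : V} (h : v ∉ D) (h' : v ∉ E) : rk S D E W k v = 0 := by
  unfold rk
  rw [if_neg h, if_pos h']

theorem rk_one {v : V} (h : v ∉ D) (h' : v ∈ E → k ≤ (gd S D E W v).card) :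
    rk S D E W k v ≤ 1 := by
  unfold rk
  rw [if_neg h]
  by_cases h1 : v ∈ E
  · rw [if_neg (not_not.2 h1), if_pos (h' h1)]
  · rw [if_pos h1]
    exact Nat.zero_le 1

theorem rk_lt {v : V} (h' : v ∈ D ∨ (v ∈ E → k ≤ (gd S D E W v).card)) :
    rk S D E W k v < 3 := by
  by_cases h : v ∈ D
  · rw [rk_D h]
    omega
  · have := rk_one (S := S) (W := W) (k := k) h (h'.resolve_left h)
    omega

theorem side
    (hD : ∀ v ∈ W, v ∈ D → ∃ R : Finset V, R ⊆ W ∧ Disjoint R D ∧ k ≤ (R.filter fun u => S u v).card ∧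
      ∀ u ∈ R, u ∈ E → k ≤ (gd S D E W u).card)
    (hE : ∀ v ∈ W, v ∉ D → v ∈ E → k ≤ (gd S D E W v).card ∨ ∃ Q : Finset V, Q ⊆ W ∧ k ≤ Q.card ∧
      ∀ u ∈ Q, S u v ∧ (u ∈ D ∨ (u ∈ E → k ≤ (gd S D E W u).card)))
    (v : V) (hv : v ∈ W) (h0 : 0 < rk S D E W k v) :
    k ≤ (W.filter fun u => S u v ∧ rk S D E W k u < rk S D E W k v).card := by
  by_cases h1 : v ∈ D
  · obtain ⟨R, hR1, hR2, hR3, hR4⟩ := hD v hv h1
    refine hR3.trans (card_le_card ?_)
    intro u hu
    obtain ⟨hu1, hu2⟩ := mem_filter.1 hu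
    refine mem_filter.2 ⟨hR1 hu1, hu2, ?_⟩
    rw [rk_D h1]
    have := rk_one (S := S) (W := W) (k := k) (Finset.disjoint_left.1 hR2 hu1) (hR4 u hu1)
    omega
  · by_cases h2 : v ∈ E
    · by_cases h3 : k ≤ (gd S D E W v).card
      · refine h3.trans (card_le_card ?_)
        intro u hu
        obtain ⟨hu1, hu2, hu3, hu4⟩ := mem_filter.1 hu
        refine mem_filter.2 ⟨hu1, hu2, ?_⟩
        rw [rk_good hu3 hu4]
        exact h0
      · obtain ⟨Q, hQ1, hQ2, hQ3⟩ := (hE v hv h1 h2).resolve_left h3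
        have h4 : rk S D E W k v = 3 := by
          unfold rk
          rw [if_neg h1, if_neg (not_not.2 h2), if_neg h3]
        refine hQ2.trans (card_le_card ?_)
        intro u hu
        refine mem_filter.2 ⟨hQ1 hu, (hQ3 u hu).1, ?_⟩
        rw [h4]
        exact rk_lt (hQ3 u hu).2
    · rw [rk_good h1 h2] at h0
      exact absurd h0 (lt_irrefl 0)

end rank

section asm

variable {V : Type} [Fintype V] {T : V → V → Prop} {k t : ℕ}

/-- the vertices of `D` of the part number `i` -/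
noncomputable def DD (k t : ℕ) (x : Fin t → V) (A B : Fin (k * t) → Finset V) (σ τ : ℕ → Fin (k * t))
    (i : Fin t) : Finset V :=
  insert (x i) (((range (k * t)).filter fun l => l / k = i).biUnion fun l => A (τ l) ∪ B (σ l))

/-- the vertices of the structures of the part number `i` -/
noncomputable def VV (k t : ℕ) (x : Fin t → V) (A B : Fin (k * t) → Finset V) (R : V → Finset V)
    (σ τ : ℕ → Fin (k * t)) (r : ℕ → ℕ) (p : ℕ → ℕ → V) (RR : ℕ → Finset V) (i : Fin t) : Finset V :=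
  DD k t x A B σ τ i ∪ ((DD k t x A B σ τ i).biUnion R ∪
    ((range (k * t)).filter fun l => l / k = i).biUnion fun l => PP (r l) (p l) ∪ RR l)

variable {x : Fin t → V} {A B : Fin (k * t) → Finset V} {a b : Fin (k * t) → V} {D EA EB : Finset V}
  {δA δB : ℕ} {R : V → Finset V} {σ τ : ℕ → Fin (k * t)} {r : ℕ → ℕ} {p : ℕ → ℕ → V} {RR : ℕ → Finset V}

theorem mem_PP {r : ℕ} {p : ℕ → V} {v : V} : v ∈ PP r p ↔ ∃ s ≤ r, p s = v := by
  unfold PP
  rw [mem_image]
  constructor
  · rintro ⟨s, hs, h⟩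
    exact ⟨s, by rw [mem_range] at hs; omega, h⟩
  · rintro ⟨s, hs, h⟩
    exact ⟨s, mem_range.2 (by omega), h⟩

theorem mem_DD {i : Fin t} {v : V} : v ∈ DD k t x A B σ τ i ↔
    v = x i ∨ ∃ l < k * t, l / k = i ∧ (v ∈ A (τ l) ∨ v ∈ B (σ l)) := by
  unfold DD
  rw [mem_insert, mem_biUnion]
  refine or_congr Iff.rfl ?_
  constructor
  · rintro ⟨l, hl, h⟩
    obtain ⟨h1, h2⟩ := mem_filter.1 hl
    exact ⟨l, mem_range.1 h1, h2, mem_union.1 h⟩
  · rintro ⟨l, h1, h2, h⟩
    exact ⟨l, mem_filter.2 ⟨mem_range.2 h1, h2⟩, mem_union.2 h⟩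

theorem mem_VV {i : Fin t} {v : V} : v ∈ VV k t x A B R σ τ r p RR i ↔
    v ∈ DD k t x A B σ τ i ∨ (∃ y ∈ DD k t x A B σ τ i, v ∈ R y) ∨
      ∃ l < k * t, l / k = i ∧ (v ∈ PP (r l) (p l) ∨ v ∈ RR l) := by
  unfold VV
  rw [mem_union, mem_union, mem_biUnion, mem_biUnion]
  refine or_congr Iff.rfl (or_congr Iff.rfl ?_)
  constructor
  · rintro ⟨l, hl, h⟩
    obtain ⟨h1, h2⟩ := mem_filter.1 hl
    exact ⟨l, mem_range.1 h1, h2, mem_union.1 h⟩
  · rintro ⟨l, h1, h2, h⟩
    exact ⟨l, mem_filter.2 ⟨mem_range.2 h1, h2⟩, mem_union.2 h⟩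

variable (F : Frame T (univ.image x) (k * t) A B a b D EA EB δA δB) (hB : Bun T D EA EB k R)
  (I : Sys T (k * t) k (k * t) a b D EA EB (D.biUnion R) σ τ r p RR)

include F in
theorem DD_sub {i : Fin t} {v : V} (h : v ∈ DD k t x A B σ τ i) : v ∈ D := by
  rw [F.hD, mem_union, mem_union, mem_biUnion, mem_biUnion]
  rcases mem_DD.1 h with h | ⟨l, hl, hi, h | h⟩
  · left
    rw [h]
    exact mem_image_of_mem _ (mem_univ _)
  · right; left
    exact ⟨τ l, mem_univ _, h⟩
  · right; right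
    exact ⟨σ l, mem_univ _, h⟩

include F in
theorem A_sub {j : Fin (k * t)} {v : V} (h : v ∈ A j) : v ∈ D := by
  rw [F.hD, mem_union, mem_union, mem_biUnion]
  exact Or.inr (Or.inl ⟨j, mem_univ _, h⟩)

include F in
theorem B_sub {j : Fin (k * t)} {v : V} (h : v ∈ B j) : v ∈ D := by
  rw [F.hD, mem_union, mem_union, mem_biUnion, mem_biUnion]
  exact Or.inr (Or.inr ⟨j, mem_univ _, h⟩)

include I in
/-- the vertices of the paths -/
theorem PP_cases {l : ℕ} (hl : l < k * t) {v : V} (h : v ∈ PP (r l) (p l)) :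
    v = b (σ l) ∨ v = a (τ l) ∨
      (v ∉ D ∧ v ∉ D.biUnion R ∧ ∃ s, 0 < s ∧ s < r l ∧ p l s = v) := by
  obtain ⟨s, hs, rfl⟩ := mem_PP.1 h
  rcases Nat.eq_zero_or_pos s with rfl | h0
  · left
    exact I.p0 l hl
  · rcases eq_or_lt_of_le hs with h1 | h1
    · right; left
      rw [h1]
      exact I.pr l hl
    · right; right
      obtain ⟨h2, h3⟩ := I.pD l hl s h0 h1
      exact ⟨h2, h3, s, h0, h1, rfl⟩

include F I in
theorem PP_D {i : Fin t} {l : ℕ} (hl : l < k * t) (hi : l / k = i) {v : V}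
    (h : v ∈ PP (r l) (p l)) (hv : v ∈ D) : v ∈ DD k t x A B σ τ i := by
  rcases PP_cases I hl h with h | h | ⟨h, -⟩
  · exact mem_DD.2 (Or.inr ⟨l, hl, hi, Or.inr (h ▸ F.bB _)⟩)
  · exact mem_DD.2 (Or.inr ⟨l, hl, hi, Or.inl (h ▸ F.aA _)⟩)
  · exact absurd hv h

include F hB I in
/-- the four types of the vertices of a part -/
theorem VV_cases {i : Fin t} {v : V} (h : v ∈ VV k t x A B R σ τ r p RR i) :
    (v ∈ D ∧ v ∈ DD k t x A B σ τ i) ∨
    (v ∉ D ∧ v ∈ D.biUnion R ∧ ∃ y ∈ DD k t x A B σ τ i, v ∈ R y) ∨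
    (v ∉ D ∧ v ∉ D.biUnion R ∧ ∃ l < k * t, l / k = i ∧ v ∈ PP (r l) (p l)) ∨
    (v ∉ D ∧ v ∉ D.biUnion R ∧ ∃ l < k * t, l / k = i ∧ v ∈ RR l) := by
  rcases mem_VV.1 h with h | ⟨y, hy, h⟩ | ⟨l, hl, hi, h | h⟩
  · exact Or.inl ⟨DD_sub F h, h⟩
  · have h1 := DD_sub F hy
    refine Or.inr (Or.inl ⟨Finset.disjoint_left.1 (hB.dis y h1) h, mem_biUnion.2 ⟨y, h1, h⟩, y, hy, h⟩)
  · by_cases hv : v ∈ D
    · exact Or.inl ⟨hv, PP_D F I hl hi h hv⟩
    · rcases PP_cases I hl h with h' | h' | ⟨h', h'', -⟩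
      · exact absurd (h' ▸ B_sub F (F.bB _)) hv
      · exact absurd (h' ▸ A_sub F (F.aA _)) hv
      · exact Or.inr (Or.inr (Or.inl ⟨hv, h'', l, hl, hi, h⟩))
  · have h1 := Finset.disjoint_left.1 (I.RD l hl) h
    rw [mem_union, not_or] at h1
    exact Or.inr (Or.inr (Or.inr ⟨h1.1, h1.2, l, hl, hi, h⟩))

include F I in
theorem DD_inj (hx : Function.Injective x) {i i' : Fin t} {v : V}
    (h : v ∈ DD k t x A B σ τ i) (h' : v ∈ DD k t x A B σ τ i') : i = i' := by
  rcases mem_DD.1 h with h | ⟨l, hl, hi, h⟩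
  · have hX : v ∈ univ.image x := h ▸ mem_image_of_mem _ (mem_univ _)
    rcases mem_DD.1 h' with h' | ⟨l', hl', hi', h' | h'⟩
    · exact hx (h.symm.trans h')
    · exact absurd h' (Finset.disjoint_left.1 (F.dXA _) hX)
    · exact absurd h' (Finset.disjoint_left.1 (F.dXB _) hX)
  · rcases mem_DD.1 h' with h' | ⟨l', hl', hi', h'⟩
    · have hX : v ∈ univ.image x := h' ▸ mem_image_of_mem _ (mem_univ _)
      rcases h with h | h
      · exact absurd h (Finset.disjoint_left.1 (F.dXA _) hX)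
      · exact absurd h (Finset.disjoint_left.1 (F.dXB _) hX)
    · have h5 : l = l' := by
        rcases h with h | h <;> rcases h' with h' | h'
        · apply I.ti l hl l' hl'
          by_contra h6
          exact Finset.disjoint_left.1 (F.dA _ _ h6) h h'
        · exact absurd h' (Finset.disjoint_left.1 (F.dAB _ _) h)
        · exact absurd h (Finset.disjoint_left.1 (F.dAB _ _) h')
        · apply I.si l hl l' hl'
          by_contra h6
          exact Finset.disjoint_left.1 (F.dB _ _ h6) h h'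
      subst h5
      exact Fin.ext (hi.symm.trans hi')

include F hB I in
theorem VV_inj (hx : Function.Injective x) {i i' : Fin t} {v : V}
    (h : v ∈ VV k t x A B R σ τ r p RR i) (h' : v ∈ VV k t x A B R σ τ r p RR i') : i = i' := by
  rcases VV_cases F hB I h with ⟨h1, h⟩ | ⟨h1, h2, y, hy, h⟩ | ⟨h1, h2, l, hl, hi, h⟩ | ⟨h1, h2, l, hl, hi, h⟩ <;>
  rcases VV_cases F hB I h' with ⟨h1', h'⟩ | ⟨h1', h2', y', hy', h'⟩ | ⟨h1', h2', l', hl', hi', h'⟩ |
    ⟨h1', h2', l', hl', hi', h'⟩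
  · exact DD_inj F I hx h h'
  · exact absurd h1 h1'
  · exact absurd h1 h1'
  · exact absurd h1 h1'
  · exact absurd h1' h1
  · have h3 : y = y' := by
      by_contra h4
      exact Finset.disjoint_left.1 (hB.dj y (DD_sub F hy) y' (DD_sub F hy') h4) h h'
    subst h3
    exact DD_inj F I hx hy hy'
  · exact absurd h2 h2'
  · exact absurd h2 h2'
  · exact absurd h1' h1
  · exact absurd h2' h2
  · have h3 : l = l' := by
      by_contra h4
      exact Finset.disjoint_left.1 (I.pp l hl l' hl' h4) h h'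
    subst h3
    exact Fin.ext (hi.symm.trans hi')
  · exact absurd h (Finset.disjoint_left.1 (I.Rp l' hl' l hl) h')
  · exact absurd h1' h1
  · exact absurd h2' h2
  · exact absurd h' (Finset.disjoint_left.1 (I.Rp l hl l' hl') h)
  · have h3 : l = l' := by
      by_contra h4
      exact Finset.disjoint_left.1 (I.dR l hl l' hl' h4) h h'
    subst h3
    exact Fin.ext (hi.symm.trans hi')

theorem surj {m : ℕ} {σ : ℕ → Fin m} (h : ∀ i < m, ∀ j < m, σ i = σ j → i = j) (j : Fin m) :
    ∃ l < m, σ l = j := by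
  have h1 : Function.Injective (fun l : Fin m => σ l) := fun a b hab =>
    Fin.ext (h a a.2 b b.2 hab)
  obtain ⟨l, hl⟩ := (Finite.injective_iff_surjective.1 h1) j
  exact ⟨l, l.2, hl⟩

include F I in
theorem D_cover (hk : 1 ≤ k) {v : V} (h : v ∈ D) : ∃ i, v ∈ DD k t x A B σ τ i := by
  have hdiv : ∀ l < k * t, l / k < t := fun l hl => Nat.div_lt_of_lt_mul hl
  rw [F.hD, mem_union, mem_union, mem_biUnion, mem_biUnion] at h
  rcases h with h | ⟨j, -, h⟩ | ⟨j, -, h⟩
  · obtain ⟨i, -, rfl⟩ := mem_image.1 h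
    exact ⟨i, mem_DD.2 (Or.inl rfl)⟩
  · obtain ⟨l, hl, rfl⟩ := surj I.ti j
    exact ⟨⟨l / k, hdiv l hl⟩, mem_DD.2 (Or.inr ⟨l, hl, rfl, Or.inl h⟩)⟩
  · obtain ⟨l, hl, rfl⟩ := surj I.si j
    exact ⟨⟨l / k, hdiv l hl⟩, mem_DD.2 (Or.inr ⟨l, hl, rfl, Or.inr h⟩)⟩

include F hB I in
/-- robust connectivity of a part `W`: the structures and some vertices with many good neighbours in `W` -/
theorem conn_part (hROB : S_ROB) (hk : 1 ≤ k) (i : Fin t) (W : Finset V)
    (hW : VV k t x A B R σ τ r p RR i ⊆ W)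
    (hr : ∀ z ∈ W, z ∉ VV k t x A B R σ τ r p RR i → z ∉ D ∧ k ≤ (gd T D EA W z).card ∧
      k ≤ (gd (fun u v => T v u) D EB W z).card) : Conn T k W := by
  have hlt : ∀ l' : Fin k, i * k + l' < k * t := by
    intro l'
    have h1 := i.2
    have h2 := l'.2
    calc (i : ℕ) * k + l' < i * k + k := by omega
      _ = (i + 1) * k := by ring
      _ ≤ t * k := Nat.mul_le_mul_right _ h1
      _ = k * t := mul_comm _ _
  have hdiv : ∀ l' : Fin k, (i * k + l' : ℕ) / k = i := by
    intro l'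
    rw [mul_comm, Nat.mul_add_div (by omega), Nat.div_eq_of_lt l'.2, add_zero]
  have hA : ∀ l' : Fin k, A (τ (i * k + l')) ⊆ W := fun l' v hv =>
    hW (mem_VV.2 (Or.inl (mem_DD.2 (Or.inr ⟨_, hlt l', hdiv l', Or.inl hv⟩))))
  have hBs : ∀ l' : Fin k, B (σ (i * k + l')) ⊆ W := fun l' v hv =>
    hW (mem_VV.2 (Or.inl (mem_DD.2 (Or.inr ⟨_, hlt l', hdiv l', Or.inr hv⟩))))
  have hPl : ∀ l < k * t, l / k = i → PP (r l) (p l) ⊆ W := fun l hl hi v hv =>
    hW (mem_VV.2 (Or.inr (Or.inr ⟨_, hl, hi, Or.inl hv⟩)))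
  have hRl : ∀ l < k * t, l / k = i → RR l ⊆ W := fun l hl hi v hv =>
    hW (mem_VV.2 (Or.inr (Or.inr ⟨_, hl, hi, Or.inr hv⟩)))
  have hRy : ∀ y ∈ DD k t x A B σ τ i, R y ⊆ W := fun y hy v hv =>
    hW (mem_VV.2 (Or.inr (Or.inl ⟨_, hy, hv⟩)))
  -- closure in a set which is disjoint from `D`
  have clA : ∀ (Q : Finset V), Q ⊆ W → Disjoint Q D → ∀ z, Cl T EA EB Q k z → z ∈ EA →
      k ≤ (gd T D EA W z).card := by
    intro Q hQ hQD z hz hE
    refine (hz.1 hE).trans (card_le_card ?_)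
    intro u hu
    rw [mem_inter, mem_sdiff] at hu
    exact mem_filter.2 ⟨hQ hu.2.1, (mem_filter.1 hu.1).2, Finset.disjoint_left.1 hQD hu.2.1, hu.2.2⟩
  have clB : ∀ (Q : Finset V), Q ⊆ W → Disjoint Q D → ∀ z, Cl T EA EB Q k z → z ∈ EB →
      k ≤ (gd (fun u v => T v u) D EB W z).card := by
    intro Q hQ hQD z hz hE
    refine (hz.2 hE).trans (card_le_card ?_)
    intro u hu
    rw [mem_inter, mem_sdiff] at hu
    exact mem_filter.2 ⟨hQ hu.2.1, (mem_filter.1 hu.1).2, Finset.disjoint_left.1 hQD hu.2.1, hu.2.2⟩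
  have hRD : ∀ l < k * t, Disjoint (RR l) D := fun l hl =>
    (I.RD l hl).mono_right subset_union_left
  have hWD : ∀ v ∈ W, v ∈ D → v ∈ DD k t x A B σ τ i := by
    intro v hv hD
    by_cases h1 : v ∈ VV k t x A B R σ τ r p RR i
    · rcases VV_cases F hB I h1 with ⟨-, h⟩ | ⟨h, -⟩ | ⟨h, -⟩ | ⟨h, -⟩
      · exact h
      · exact absurd hD h
      · exact absurd hD h
      · exact absurd hD h
    · exact absurd hD (hr v hv h1).1
  have hinj : ∀ l < k * t, ∀ s, s ≤ r l → ∀ s', s' ≤ r l → p l s = p l s' → s = s' :=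
    fun l hl s hs s' hs' h => I.pj l hl s hs s' hs' h
  refine hROB V T W k (fun l' => A (τ (i * k + l'))) (fun l' => B (σ (i * k + l')))
    (fun l' => a (τ (i * k + l'))) (fun l' => b (σ (i * k + l')))
    (fun l' => PP (r (i * k + l')) (p (i * k + l'))) (rk T D EA W k)
    (rk (fun u v => T v u) D EB W k) ?_ ?_ ?_ ?_ ?_ ?_ ?_ ?_ ?_ ?_
  · intro l'
    exact ⟨hA l', hBs l', hPl _ (hlt l') (hdiv l')⟩
  · -- disjointness
    intro l l' hll
    have hne : (i * k + l : ℕ) ≠ i * k + l' := by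
      intro h
      apply hll
      apply Fin.ext
      omega
    rw [Finset.disjoint_left]
    intro v hv hv'
    have key : ∀ {l : ℕ}, l < k * t → v ∈ A (τ l) ∪ B (σ l) ∪ PP (r l) (p l) →
        (v ∈ A (τ l)) ∨ (v ∈ B (σ l)) ∨ (v ∉ D ∧ v ∈ PP (r l) (p l)) := by
      intro l hl h
      rw [mem_union, mem_union] at h
      rcases h with (h | h) | h
      · exact Or.inl h
      · exact Or.inr (Or.inl h)
      · rcases PP_cases I hl h with h' | h' | ⟨h', -⟩
        · exact Or.inr (Or.inl (h' ▸ F.bB _))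
        · exact Or.inl (h' ▸ F.aA _)
        · exact Or.inr (Or.inr ⟨h', h⟩)
    rcases key (hlt l) hv with h | h | ⟨h1, h⟩ <;> rcases key (hlt l') hv' with h' | h' | ⟨h1', h'⟩
    · have h6 : τ (i * k + l) ≠ τ (i * k + l') := fun h7 => hne (I.ti _ (hlt l) _ (hlt l') h7)
      exact Finset.disjoint_left.1 (F.dA _ _ h6) h h'
    · exact Finset.disjoint_left.1 (F.dAB _ _) h h'
    · exact h1' (A_sub F h)
    · exact Finset.disjoint_left.1 (F.dAB _ _) h' h
    · have h6 : σ (i * k + l) ≠ σ (i * k + l') := fun h7 => hne (I.si _ (hlt l) _ (hlt l') h7)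
      exact Finset.disjoint_left.1 (F.dB _ _ h6) h h'
    · exact h1' (B_sub F h)
    · exact h1 (A_sub F h')
    · exact h1 (B_sub F h')
    · exact Finset.disjoint_left.1 (I.pp _ (hlt l) _ (hlt l') hne) h h'
  · intro l'
    exact ⟨F.aA _, F.bB _⟩
  · intro l'
    exact F.src _
  · intro l'
    exact F.snk _
  · -- the path
    intro l'
    have h1 : ∀ s ≤ r (i * k + l'), Reach T (PP (r (i * k + l')) (p (i * k + l')))
        (b (σ (i * k + l'))) (p (i * k + l') s) := by
      intro s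
      induction s with
      | zero =>
        intro _
        rw [I.p0 _ (hlt l')]
        exact Relation.ReflTransGen.refl
      | succ s ih =>
        intro hs
        refine Relation.ReflTransGen.tail (ih (by omega)) ⟨?_, ?_, ?_⟩
        · exact mem_PP.2 ⟨s, by omega, rfl⟩
        · exact mem_PP.2 ⟨s + 1, hs, rfl⟩
        · exact I.pe _ (hlt l') s (by omega)
    have h2 := h1 _ le_rfl
    rw [I.pr _ (hlt l')] at h2
    exact h2
  · intro v _ h0 l'
    obtain ⟨h1, h2⟩ := rk_zero h0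
    exact F.domA v h1 h2 _
  · -- in-ranks
    intro v hv h0
    refine side ?_ ?_ v hv h0
    · intro v hv hD
      have h1 := hWD v hv hD
      refine ⟨R v, hRy v h1, hB.dis v hD, ?_, ?_⟩
      · refine (hB.inn v hD).trans (card_le_card ?_)
        intro u hu
        rw [mem_inter] at hu
        exact mem_filter.2 ⟨hu.2, (mem_filter.1 hu.1).2⟩
      · intro u hu hE
        exact clA (R v) (hRy v h1) (hB.dis v hD) u (hB.cl v hD u hu) hE
    · intro v hv hD hE
      by_cases h1 : v ∈ VV k t x A B R σ τ r p RR i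
      · rcases VV_cases F hB I h1 with ⟨h, -⟩ | ⟨-, -, y, hy, h⟩ | ⟨-, -, l, hl, hi, h⟩ |
          ⟨-, -, l, hl, hi, h⟩
        · exact absurd h hD
        · exact Or.inl (clA (R y) (hRy y hy) (hB.dis y (DD_sub F hy)) v
            (hB.cl y (DD_sub F hy) v h) hE)
        · rcases PP_cases I hl h with h' | h' | ⟨-, -, s, hs0, hsr, rfl⟩
          · exact absurd (h' ▸ B_sub F (F.bB _)) hD
          · exact absurd (h' ▸ A_sub F (F.aA _)) hD
          · by_cases h2 : r l ≤ s + k
            · exact Or.inl (clA (RR l) (hRl l hl hi) (hRD l hl) _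
                (I.clP l hl s hs0 hsr (Or.inr h2)) hE)
            · right
              refine ⟨(Icc (r l - k + 1) (r l)).image (p l), ?_, ?_, ?_⟩
              · intro u hu
                obtain ⟨s', hs', rfl⟩ := mem_image.1 hu
                rw [mem_Icc] at hs'
                exact hPl l hl hi (mem_PP.2 ⟨s', hs'.2, rfl⟩)
              · rw [card_image_of_injOn, Nat.card_Icc]
                · omega
                · intro s1 hs1 s2 hs2 h3
                  rw [mem_coe, mem_Icc] at hs1 hs2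
                  exact I.pj l hl s1 hs1.2 s2 hs2.2 h3
              · intro u hu
                obtain ⟨s', hs', rfl⟩ := mem_image.1 hu
                rw [mem_Icc] at hs'
                refine ⟨I.pb l hl s s' (by omega) hs'.2, ?_⟩
                rcases eq_or_lt_of_le hs'.2 with h3 | h3
                · left
                  rw [h3, I.pr l hl]
                  exact A_sub F (F.aA _)
                · right
                  exact clA (RR l) (hRl l hl hi) (hRD l hl) _
                    (I.clP l hl s' (by omega) h3 (Or.inr (by omega)))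
        · exact Or.inl (clA (RR l) (hRl l hl hi) (hRD l hl) _ (I.clR l hl v h) hE)
      · exact Or.inl (hr v hv h1).2.1
  · intro v _ h0 l'
    obtain ⟨h1, h2⟩ := rk_zero h0
    exact F.domB v h1 h2 _
  · -- out-ranks
    intro v hv h0
    refine side ?_ ?_ v hv h0
    · intro v hv hD
      have h1 := hWD v hv hD
      refine ⟨R v, hRy v h1, hB.dis v hD, ?_, ?_⟩
      · refine (hB.out v hD).trans (card_le_card ?_)
        intro u hu
        rw [mem_inter] at hu
        exact mem_filter.2 ⟨hu.2, (mem_filter.1 hu.1).2⟩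
      · intro u hu hE
        exact clB (R v) (hRy v h1) (hB.dis v hD) u (hB.cl v hD u hu) hE
    · intro v hv hD hE
      by_cases h1 : v ∈ VV k t x A B R σ τ r p RR i
      · rcases VV_cases F hB I h1 with ⟨h, -⟩ | ⟨-, -, y, hy, h⟩ | ⟨-, -, l, hl, hi, h⟩ |
          ⟨-, -, l, hl, hi, h⟩
        · exact absurd h hD
        · exact Or.inl (clB (R y) (hRy y hy) (hB.dis y (DD_sub F hy)) v
            (hB.cl y (DD_sub F hy) v h) hE)
        · rcases PP_cases I hl h with h' | h' | ⟨-, -, s, hs0, hsr, rfl⟩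
          · exact absurd (h' ▸ B_sub F (F.bB _)) hD
          · exact absurd (h' ▸ A_sub F (F.aA _)) hD
          · by_cases h2 : s ≤ k
            · exact Or.inl (clB (RR l) (hRl l hl hi) (hRD l hl) _
                (I.clP l hl s hs0 hsr (Or.inl h2)) hE)
            · right
              refine ⟨(range k).image (p l), ?_, ?_, ?_⟩
              · intro u hu
                obtain ⟨s', hs', rfl⟩ := mem_image.1 hu
                rw [mem_range] at hs'
                exact hPl l hl hi (mem_PP.2 ⟨s', by omega, rfl⟩)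
              · rw [card_image_of_injOn, card_range]
                intro s1 hs1 s2 hs2 h3
                rw [mem_coe, mem_range] at hs1 hs2
                exact I.pj l hl s1 (by omega) s2 (by omega) h3
              · intro u hu
                obtain ⟨s', hs', rfl⟩ := mem_image.1 hu
                rw [mem_range] at hs'
                refine ⟨I.pb l hl s' s (by omega) hsr.le, ?_⟩
                rcases Nat.eq_zero_or_pos s' with h3 | h3
                · left
                  rw [h3, I.p0 l hl]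
                  exact B_sub F (F.bB _)
                · right
                  exact clB (RR l) (hRl l hl hi) (hRD l hl) _
                    (I.clP l hl s' h3 (by omega) (Or.inl (by omega)))
        · exact Or.inl (clB (RR l) (hRl l hl hi) (hRD l hl) _ (I.clR l hl v h) hE)
      · exact Or.inl (hr v hv h1).2.2

end asm

end Pool.Agent.N353.PT.Asm
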