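import Pool.Agent.N353.PT.Asm

/-!
# Project PT: the final theorem from the pieces
-/

set_option autoImplicit false
set_option linter.all false

open Finset
open scoped Classical

namespace Pool.Agent.N353.PT.Asm

open Pool.Agent.N353.PT

variable {V : Type} [Fintype V] {T : V → V → Prop} {k t : ℕ}

theorem card_bd (S Z : Finset V) : S.card ≤ (S \ Z).card + Z.card := by
  have := Finset.card_le_card (show S ⊆ (S \ Z) ∪ Z from fun v hv => by
    by_cases h : v ∈ Z
    · exact mem_union_right _ h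
    · exact mem_union_left _ (mem_sdiff.2 ⟨hv, h⟩))
  exact this.trans (card_union_le _ _)

/-- counting the good neighbours of a vertex outside the structures -/
theorem count_good (S : V → V → Prop) (D E Wr W : Finset V) (m k M : ℕ) (v : V) (δ : ℕ)
    (r : ℕ → ℕ) (p : ℕ → ℕ → V) (RR : ℕ → Finset V) (hm : 1 ≤ m)
    (hW : ∀ u, u ∉ D → u ∉ Wr → (∀ l < m, u ∉ PP (r l) (p l) ∧ u ∉ RR l) → u ∈ W)
    (hR : ∀ l < m, (RR l).card ≤ 6 * k ^ 3)
    (hE : 8 * E.card ≤ δ) (hδ : δ ≤ (univ.filter fun u => S u v).card)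
    (hM : M ≤ (univ.filter fun u => S u v).card)
    (h8 : 8 * (D.card + Wr.card + 6 * k ^ 3 * m + 4 * m + k + 4) ≤ M)
    (hs : 8 * m * ∑ l ∈ range m, ((univ.filter fun u => S u v) ∩ PP (r l) (p l)).card ≤
      m * (32 * m + (univ.filter fun u => S u v).card)) :
    k ≤ (gd S D E W v).card := by
  set N := univ.filter fun u => S u v with hN
  set Z := D ∪ (Wr ∪ (E ∪ ((range m).biUnion RR ∪ (range m).biUnion fun l => N ∩ PP (r l) (p l))))
    with hZ
  have h1 : (N \ Z).card ≤ (gd S D E W v).card := by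
    refine card_le_card ?_
    intro u hu
    obtain ⟨hu1, hu2⟩ := mem_sdiff.1 hu
    rw [hZ, mem_union, mem_union, mem_union, mem_union, not_or, not_or, not_or, not_or,
      mem_biUnion, mem_biUnion] at hu2
    obtain ⟨a1, a2, a3, a4, a5⟩ := hu2
    refine mem_filter.2 ⟨hW u a1 a2 fun l hl => ⟨?_, ?_⟩, (mem_filter.1 hu1).2, a1, a3⟩
    · intro h
      exact a5 ⟨l, mem_range.2 hl, mem_inter.2 ⟨hu1, h⟩⟩
    · intro h
      exact a4 ⟨l, mem_range.2 hl, h⟩
  have h2 : Z.card ≤ D.card + (Wr.card + (E.card + (6 * k ^ 3 * m +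
      ∑ l ∈ range m, (N ∩ PP (r l) (p l)).card))) := by
    refine (card_union_le _ _).trans (Nat.add_le_add_left ?_ _)
    refine (card_union_le _ _).trans (Nat.add_le_add_left ?_ _)
    refine (card_union_le _ _).trans (Nat.add_le_add_left ?_ _)
    refine (card_union_le _ _).trans (Nat.add_le_add ?_ card_biUnion_le)
    refine card_biUnion_le.trans ?_
    refine (Finset.sum_le_sum fun l hl => hR l (mem_range.1 hl)).trans ?_
    rw [sum_const, card_range, smul_eq_mul, mul_comm]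
  have h3 := card_bd N Z
  have h4 : 8 * ∑ l ∈ range m, (N ∩ PP (r l) (p l)).card ≤ 32 * m + N.card := by
    have h5 : m * (8 * ∑ l ∈ range m, (N ∩ PP (r l) (p l)).card) ≤ m * (32 * m + N.card) := by
      refine le_trans (le_of_eq ?_) hs
      ring
    exact Nat.le_of_mul_le_mul_left h5 hm
  generalize (∑ l ∈ range m, (N ∩ PP (r l) (p l)).card) = tot at h2 h4
  generalize 6 * k ^ 3 * m = Q at h2 h8
  omega

theorem asm (hROB : S_ROB) (hk : 1 ≤ k) (ht : 1 ≤ t) (M : ℕ) (x : Fin t → V)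
    (hx : Function.Injective x) {A B : Fin (k * t) → Finset V} {a b : Fin (k * t) → V}
    {D EA EB : Finset V} {δA δB : ℕ} {R : V → Finset V} {σ τ : ℕ → Fin (k * t)} {r : ℕ → ℕ}
    {p : ℕ → ℕ → V} {RR : ℕ → Finset V}
    (F : Frame T (univ.image x) (k * t) A B a b D EA EB δA δB) (hB : Bun T D EA EB k R)
    (hM : ∀ v, M ≤ (inN T v).card ∧ M ≤ (outN T v).card)
    (h8 : 8 * (D.card + (D.biUnion R).card + 6 * k ^ 3 * (k * t) + 4 * (k * t) + k + 4) ≤ M)
    (I : Inv T (k * t) k (k * t) a b D EA EB (D.biUnion R) σ τ r p RR) :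
    ∃ c : V → Fin t, (∀ i, c (x i) = i) ∧ ∀ i, k + 1 ≤ (univ.filter fun v => c v = i).card ∧
      Conn T k (univ.filter fun v => c v = i) := by
  have hdiv : ∀ l < k * t, l / k < t := fun l hl => Nat.div_lt_of_lt_mul hl
  have hm : 1 ≤ k * t := Nat.mul_pos hk ht
  set VF := VV k t x A B R σ τ r p RR with hVF
  let c : V → Fin t := fun v => if h : ∃ i, v ∈ VF i then Classical.choose h else ⟨0, ht⟩
  have hc1 : ∀ i v, v ∈ VF i → c v = i := by
    intro i v hv
    have h : ∃ i, v ∈ VF i := ⟨i, hv⟩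
    show (if h : ∃ i, v ∈ VF i then Classical.choose h else ⟨0, ht⟩) = i
    rw [dif_pos h]
    exact VV_inj F hB I.sys hx (Classical.choose_spec h) hv
  have hc2 : ∀ v, (¬ ∃ i, v ∈ VF i) → c v = ⟨0, ht⟩ := by
    intro v h
    exact dif_neg h
  -- a vertex outside the structures
  have hrest : ∀ v, v ∉ D → v ∉ D.biUnion R → (∀ l < k * t, v ∉ PP (r l) (p l) ∧ v ∉ RR l) →
      ¬ ∃ i, v ∈ VF i := by
    rintro v h1 h2 h3 ⟨i, hi⟩
    rcases VV_cases F hB I.sys hi with ⟨h, -⟩ | ⟨-, h, -⟩ | ⟨-, -, l, hl, -, h⟩ | ⟨-, -, l, hl, -, h⟩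
    · exact h1 h
    · exact h2 h
    · exact (h3 l hl).1 h
    · exact (h3 l hl).2 h
  have hrest2 : ∀ v, (¬ ∃ i, v ∈ VF i) → v ∉ D ∧ v ∉ D.biUnion R ∧
      ∀ l < k * t, v ∉ PP (r l) (p l) ∧ v ∉ RR l := by
    intro v hv
    refine ⟨?_, ?_, ?_⟩
    · intro h
      obtain ⟨i, hi⟩ := D_cover F I.sys hk h
      exact hv ⟨i, mem_VV.2 (Or.inl hi)⟩
    · intro h
      obtain ⟨y, hy, h⟩ := mem_biUnion.1 h
      obtain ⟨i, hi⟩ := D_cover F I.sys hk hy
      exact hv ⟨i, mem_VV.2 (Or.inr (Or.inl ⟨y, hi, h⟩))⟩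
    · intro l hl
      refine ⟨fun h => hv ⟨⟨l / k, hdiv l hl⟩, ?_⟩, fun h => hv ⟨⟨l / k, hdiv l hl⟩, ?_⟩⟩
      · exact mem_VV.2 (Or.inr (Or.inr ⟨l, hl, rfl, Or.inl h⟩))
      · exact mem_VV.2 (Or.inr (Or.inr ⟨l, hl, rfl, Or.inr h⟩))
  have hsub : ∀ i, VF i ⊆ univ.filter fun v => c v = i := fun i v hv =>
    mem_filter.2 ⟨mem_univ _, hc1 i v hv⟩
  refine ⟨c, fun i => hc1 i _ (mem_VV.2 (Or.inl (mem_DD.2 (Or.inl rfl)))), fun i => ⟨?_, ?_⟩⟩
  · -- the number of vertices
    have hlt : ∀ l' : Fin k, (i : ℕ) * k + l' < k * t := by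
      intro l'
      have h1 := i.2
      have h2 := l'.2
      calc (i : ℕ) * k + l' < i * k + k := by omega
        _ = (i + 1) * k := by ring
        _ ≤ t * k := Nat.mul_le_mul_right _ h1
        _ = k * t := mul_comm _ _
    have hdiv' : ∀ l' : Fin k, ((i : ℕ) * k + l' : ℕ) / k = i := by
      intro l'
      rw [mul_comm, Nat.mul_add_div (by omega), Nat.div_eq_of_lt l'.2, add_zero]
    set f : Fin k → V := fun l' => a (τ (i * k + l')) with hf
    have hfi : Function.Injective f := by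
      intro l l' h
      have h1 : τ (i * k + l) = τ (i * k + l') := by
        by_contra h2
        have h3 : f l ∈ A (τ (i * k + l)) := F.aA _
        have h4 : f l ∈ A (τ (i * k + l')) := by
          rw [h]
          exact F.aA _
        exact Finset.disjoint_left.1 (F.dA _ _ h2) h3 h4
      have h2 := I.sys.ti _ (hlt l) _ (hlt l') h1
      apply Fin.ext
      omega
    have h1 : (insert (x i) (univ.image f)).card = k + 1 := by
      rw [card_insert_of_notMem, card_image_of_injective _ hfi, card_univ, Fintype.card_fin]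
      intro h
      obtain ⟨l, -, hl⟩ := mem_image.1 h
      have h2 : x i ∈ A (τ (i * k + l)) := by
        rw [← hl]
        exact F.aA _
      exact Finset.disjoint_left.1 (F.dXA _) (mem_image_of_mem _ (mem_univ _)) h2
    rw [← h1]
    refine card_le_card ?_
    intro v hv
    rcases mem_insert.1 hv with rfl | hv
    · exact hsub i (mem_VV.2 (Or.inl (mem_DD.2 (Or.inl rfl))))
    · obtain ⟨l, -, rfl⟩ := mem_image.1 hv
      exact hsub i (mem_VV.2 (Or.inl (mem_DD.2 (Or.inr ⟨_, hlt l, hdiv' l, Or.inl (F.aA _)⟩))))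
  · refine conn_part F hB I.sys hROB hk i _ (hsub i) ?_
    intro z hz hz'
    have h1 : c z = i := (mem_filter.1 hz).2
    have h2 : ¬ ∃ i, z ∈ VF i := by
      rintro ⟨i', hi'⟩
      have h3 := hc1 i' z hi'
      rw [h1] at h3
      rw [h3] at hz'
      exact hz' hi'
    have h3 : (⟨0, ht⟩ : Fin t) = i := (hc2 z h2).symm.trans h1
    obtain ⟨h4, h5, h6⟩ := hrest2 z h2
    have hW : ∀ u, u ∉ D → u ∉ D.biUnion R → (∀ l < k * t, u ∉ PP (r l) (p l) ∧ u ∉ RR l) →
        u ∈ univ.filter fun v => c v = i := by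
      intro u a1 a2 a3
      refine mem_filter.2 ⟨mem_univ _, ?_⟩
      rw [hc2 u (hrest u a1 a2 a3), h3]
    have hzR : z ∈ Rem (k * t) a b D (D.biUnion R) σ τ r p RR :=
      mem_filter.2 ⟨mem_univ _, Or.inl h4, h5, h6⟩
    refine ⟨h4, ?_, ?_⟩
    · exact count_good T D EA (D.biUnion R) _ (k * t) k M z δA r p RR hm hW I.sys.Rc F.eA
        (F.degA z h4) (hM z).1 h8 (I.spA z hzR)
    · exact count_good (fun u v => T v u) D EB (D.biUnion R) _ (k * t) k M z δB r p RR hm hW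
        I.sys.Rc F.eB (F.degB z h4) (hM z).2 h8 (I.spB z hzR)

theorem reach_rev {U : Finset V} {u v : V} (h : Reach (fun a b => T b a) U u v) : Reach T U v u := by
  unfold Reach at h ⊢
  induction h with
  | refl => exact Relation.ReflTransGen.refl
  | tail _ h2 ih => exact Relation.ReflTransGen.head ⟨h2.2.1, h2.1, h2.2.2⟩ ih

theorem conn_rev {n : ℕ} {U : Finset V} (h : Conn (fun a b => T b a) n U) : Conn T n U :=
  fun X hX u hu v hv => reach_rev (h X hX v hv u hu)

/-- the theorem for a tournament with given sets of vertices of low degree -/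
theorem core (hFRM : S_FRM) (hBUN : S_BUN) (hPATHS : S_PATHS) (hROB : S_ROB)
    (hk : 1 ≤ k) (ht : 1 ≤ t) (M : ℕ) (hMb : 768 * k ^ 4 * t * (Nat.clog 2 (k * t) + 1) ≤ M)
    (hT : Tour T) (hC : Conn T M univ) (hM : ∀ v, M ≤ (inN T v).card ∧ M ≤ (outN T v).card)
    (x : Fin t → V) (hx : Function.Injective x)
    (hLo : ∃ XA XB δA δB, Lo T (univ.image x) (k * t) XA XB δA δB) :
    ∃ c : V → Fin t, (∀ i, c (x i) = i) ∧ ∀ i, k + 1 ≤ (univ.filter fun v => c v = i).card ∧
      Conn T k (univ.filter fun v => c v = i) := by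
  obtain ⟨XA, XB, δA, δB, L⟩ := hLo
  have hm : 1 ≤ k * t := Nat.mul_pos hk ht
  set cl := Nat.clog 2 (k * t) with hcl
  have hc : 8 * (k * t) ≤ 2 ^ (cl + 4 - 1) := by
    have h1 : k * t ≤ 2 ^ cl := Nat.le_pow_clog (by norm_num) _
    calc 8 * (k * t) ≤ 8 * 2 ^ cl := Nat.mul_le_mul_left _ h1
      _ = 2 ^ (cl + 4 - 1) := by
        rw [show cl + 4 - 1 = cl + 3 by omega, pow_add]
        ring
  obtain ⟨A, B, a, b, D, EA, EB, F, hD⟩ := hFRM V T hT (univ.image x) (k * t) (cl + 4) XA XB δA δB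
    hm hc L
  have hX0 : (univ.image x).card = t := by
    rw [card_image_of_injective _ hx, card_univ, Fintype.card_fin]
  rw [hX0] at hD
  -- the bound for the reserved sets
  have hk3 : 1 ≤ k ^ 3 := Nat.one_le_pow _ _ hk
  have htm : t ≤ k * t := Nat.le_mul_of_pos_left _ hk
  have hkm : k ≤ k * t := Nat.le_mul_of_pos_right _ ht
  have hD2 : D.card ≤ 9 * (k * t) * (cl + 1) := by
    refine hD.trans ?_
    nlinarith [Nat.zero_le cl]
  have hkey : 8 * (D.card * (1 + 8 * k ^ 3) + 6 * k ^ 3 * (k * t) + 4 * (k * t) + k + 4) ≤ M := by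
    refine le_trans ?_ hMb
    have e1 : 768 * k ^ 4 * t * (cl + 1) = 8 * (96 * k ^ 3 * ((k * t) * (cl + 1))) := by ring
    rw [e1]
    apply Nat.mul_le_mul_left
    have f1 : D.card * (1 + 8 * k ^ 3) ≤ 81 * k ^ 3 * ((k * t) * (cl + 1)) := by
      calc D.card * (1 + 8 * k ^ 3) ≤ (9 * (k * t) * (cl + 1)) * (9 * k ^ 3) := by
            apply Nat.mul_le_mul hD2
            omega
        _ = 81 * k ^ 3 * ((k * t) * (cl + 1)) := by ring
    set Y := (k * t) * (cl + 1) with hY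
    have f2 : k * t ≤ Y := Nat.le_mul_of_pos_right _ (Nat.succ_pos _)
    have f3 : Y ≤ k ^ 3 * Y := Nat.le_mul_of_pos_left _ hk3
    have f4 : 6 * k ^ 3 * (k * t) ≤ 6 * (k ^ 3 * Y) := by
      calc 6 * k ^ 3 * (k * t) = 6 * (k ^ 3 * (k * t)) := by ring
        _ ≤ 6 * (k ^ 3 * Y) := by gcongr
    have f5 : 96 * k ^ 3 * Y = 96 * (k ^ 3 * Y) := by ring
    have f6 : 81 * k ^ 3 * Y = 81 * (k ^ 3 * Y) := by ring
    rw [f5]
    rw [f6] at f1
    omega
  have hBM : 2 * (D.card * (1 + 8 * k ^ 3) + k) ≤ M := by omega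
  obtain ⟨R, hR⟩ := hBUN V T (univ.image x) (k * t) k M A B a b D EA EB δA δB hk F hM hBM
  have hWc : (D.biUnion R).card ≤ D.card * (8 * k ^ 3) := by
    refine card_biUnion_le.trans ?_
    refine (Finset.sum_le_sum fun y hy => hR.card y hy).trans ?_
    rw [sum_const, smul_eq_mul]
  have hWD : Disjoint (D.biUnion R) D := by
    rw [Finset.disjoint_biUnion_left]
    exact fun y hy => hR.dis y hy
  have h8 : 8 * (D.card + (D.biUnion R).card + 6 * k ^ 3 * (k * t) + 4 * (k * t) + k + 4) ≤ M := by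
    refine le_trans (Nat.mul_le_mul_left _ ?_) hkey
    have : D.card * (1 + 8 * k ^ 3) = D.card + D.card * (8 * k ^ 3) := by ring
    omega
  obtain ⟨σ, τ, r, p, RR, I⟩ := hPATHS V T hT (univ.image x) (k * t) k M A B a b D EA EB
    (D.biUnion R) δA δB hk hm F hWD hM hC h8
  exact asm hROB hk ht M x hx F hR hM h8 I

/-- the theorem from the pieces -/
theorem main (hSEL : S_SEL) (hFRM : S_FRM) (hBUN : S_BUN) (hPATHS : S_PATHS) (hROB : S_ROB)
    (hDEG : S_DEG) (hk : 1 ≤ k) (ht : 1 ≤ t) (M : ℕ)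
    (hMb : 768 * k ^ 4 * t * (Nat.clog 2 (k * t) + 1) ≤ M) (hT : Tour T)
    (hMV : M < Fintype.card V) (hC : Conn T M univ)
    (x : Fin t → V) (hx : Function.Injective x) :
    ∃ c : V → Fin t, (∀ i, c (x i) = i) ∧ ∀ i, k + 1 ≤ (univ.filter fun v => c v = i).card ∧
      Conn T k (univ.filter fun v => c v = i) := by
  have hM := hDEG V T M hT hMV hC
  have hm : 1 ≤ k * t := Nat.mul_pos hk ht
  have hX0 : (univ.image x).card + 2 * (k * t) ≤ Fintype.card V := by
    rw [card_image_of_injective _ hx, card_univ, Fintype.card_fin]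
    have hk3 : 1 ≤ k ^ 3 := Nat.one_le_pow _ _ hk
    have htm : t ≤ k * t := Nat.le_mul_of_pos_left _ hk
    have h1 : 3 * (k * t) ≤ 768 * k ^ 4 * t * (Nat.clog 2 (k * t) + 1) := by
      have e1 : 768 * k ^ 4 * t * (Nat.clog 2 (k * t) + 1) =
          (768 * k ^ 3 * (Nat.clog 2 (k * t) + 1)) * (k * t) := by ring
      rw [e1]
      apply Nat.mul_le_mul_right
      nlinarith [Nat.zero_le (Nat.clog 2 (k * t)), Nat.zero_le (k ^ 3 * Nat.clog 2 (k * t))]
    omega
  have hT' : Tour (fun u v => T v u) := by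
    refine ⟨hT.1, fun u v h => ?_⟩
    exact hT.2 v u h.symm
  rcases hSEL V T (univ.image x) (k * t) hm hX0 with h | h
  · exact core hFRM hBUN hPATHS hROB hk ht M hMb hT hC hM x hx h
  · obtain ⟨c, hc1, hc2⟩ := core (T := fun u v => T v u) hFRM hBUN hPATHS hROB hk ht M hMb hT'
      (conn_rev hC) (fun v => ⟨(hM v).2, (hM v).1⟩) x hx h
    exact ⟨c, hc1, fun i => ⟨(hc2 i).1, conn_rev (hc2 i).2⟩⟩

end Pool.Agent.N353.PT.Asm
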