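import Mathlib

/-!
# Project PT (helper353), MP_a8780a_co: partitions of highly connected tournaments into `k`-strong parts
# with prescribed vertices. Definitions and exact statements of the pieces.
-/

set_option autoImplicit false
set_option linter.unusedVariables false

open Finset
open scoped Classical

namespace Pool.Agent.N353.PT

section defs

variable {V : Type}

/-- `T` is a tournament -/
def Tour (T : V → V → Prop) : Prop := (∀ v, ¬ T v v) ∧ ∀ u v, u ≠ v → (T u v ↔ ¬ T v u)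

/-- one can go from `u` to `v` inside `U` -/
def Reach (T : V → V → Prop) (U : Finset V) (u v : V) : Prop :=
  Relation.ReflTransGen (fun a b => a ∈ U ∧ b ∈ U ∧ T a b) u v

/-- after the deletion of fewer than `k` vertices from `U` every vertex can be reached from every other one -/
def Conn (T : V → V → Prop) (k : ℕ) (U : Finset V) : Prop :=
  ∀ X : Finset V, X.card < k → ∀ u ∈ U \ X, ∀ v ∈ U \ X, Reach T (U \ X) u v

variable [Fintype V]

/-- the in-neighbours -/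
noncomputable def inN (T : V → V → Prop) (v : V) : Finset V := univ.filter fun u => T u v

/-- the out-neighbours -/
noncomputable def outN (T : V → V → Prop) (v : V) : Finset V := univ.filter fun u => T v u

/-- `XA`: `m` vertices of lowest in-degree outside `X0`; `XB`: `m` vertices of lowest out-degree outside
`X0` and `XA` -/
structure Lo (T : V → V → Prop) (X0 : Finset V) (m : ℕ) (XA XB : Finset V) (δA δB : ℕ) : Prop where
  cA : XA.card = m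
  cB : XB.card = m
  dA : Disjoint X0 XA
  dB : Disjoint X0 XB
  dAB : Disjoint XA XB
  le : δA ≤ δB
  loA : ∀ v ∈ XA, (inN T v).card ≤ δA
  hiA : ∀ v, v ∉ X0 → v ∉ XA → δA ≤ (inN T v).card
  loB : ∀ v ∈ XB, (outN T v).card ≤ δB
  hiB : ∀ v, v ∉ X0 → v ∉ XA → v ∉ XB → δB ≤ (outN T v).card

/-- the dominating sets: `A j` is dominated by its source `a j`, `B j` dominates its sink `b j`; every vertex
outside `D` and outside the exceptional set `EA` is dominated by every `A j`; every vertex outside `D` and `EB`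
dominates a vertex of every `B j` -/
structure Frame (T : V → V → Prop) (X0 : Finset V) (m : ℕ) (A B : Fin m → Finset V) (a b : Fin m → V)
    (D EA EB : Finset V) (δA δB : ℕ) : Prop where
  hD : D = X0 ∪ (univ.biUnion A ∪ univ.biUnion B)
  dA : ∀ i j, i ≠ j → Disjoint (A i) (A j)
  dB : ∀ i j, i ≠ j → Disjoint (B i) (B j)
  dAB : ∀ i j, Disjoint (A i) (B j)
  dXA : ∀ i, Disjoint X0 (A i)
  dXB : ∀ i, Disjoint X0 (B i)
  aA : ∀ i, a i ∈ A i
  bB : ∀ i, b i ∈ B i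
  src : ∀ i, ∀ x ∈ A i, x ≠ a i → T (a i) x
  snk : ∀ i, ∀ x ∈ B i, x ≠ b i → T x (b i)
  domA : ∀ y, y ∉ D → y ∉ EA → ∀ i, ∃ x ∈ A i, T x y
  domB : ∀ y, y ∉ D → y ∉ EB → ∀ i, ∃ x ∈ B i, T y x
  eA : 8 * EA.card ≤ δA
  eB : 8 * EB.card ≤ δB
  le : δA ≤ δB
  degA : ∀ y, y ∉ D → δA ≤ (inN T y).card
  degB : ∀ y, y ∉ D → δB ≤ (outN T y).card

/-- an exceptional vertex `z` has `k` good neighbours in `R` -/
def Cl (T : V → V → Prop) (EA EB R : Finset V) (k : ℕ) (z : V) : Prop :=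
  (z ∈ EA → k ≤ (inN T z ∩ (R \ EA)).card) ∧ (z ∈ EB → k ≤ (outN T z ∩ (R \ EB)).card)

/-- the reserved vertices `R y` for the vertices `y` of `D` -/
structure Bun (T : V → V → Prop) (D EA EB : Finset V) (k : ℕ) (R : V → Finset V) : Prop where
  dis : ∀ y ∈ D, Disjoint (R y) D
  dj : ∀ y ∈ D, ∀ y' ∈ D, y ≠ y' → Disjoint (R y) (R y')
  card : ∀ y ∈ D, (R y).card ≤ 8 * k ^ 3
  inn : ∀ y ∈ D, k ≤ (inN T y ∩ R y).card
  out : ∀ y ∈ D, k ≤ (outN T y ∩ R y).card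
  cl : ∀ y ∈ D, ∀ z ∈ R y, Cl T EA EB (R y) k z

/-- a shortest path `p 0, ..., p r` in `U` from `S0` to `S1`; `d` is the distance from `S0` in `U` -/
structure Geo (T : V → V → Prop) (U S0 S1 : Finset V) (d : V → ℕ) (r : ℕ) (p : ℕ → V) : Prop where
  d0 : ∀ u ∈ U, (d u = 0 ↔ u ∈ S0)
  d1 : ∀ u ∈ U, ∀ v ∈ U, T u v → d v ≤ d u + 1
  pU : ∀ s ≤ r, p s ∈ U
  pd : ∀ s ≤ r, d (p s) = s
  pe : ∀ s < r, T (p s) (p (s + 1))
  r0 : 1 ≤ r
  pS : p r ∈ S1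
  pn : ∀ s < r, p s ∉ S1

/-- the vertices of a path -/
noncomputable def PP (r : ℕ) (p : ℕ → V) : Finset V := (range (r + 1)).image p

/-- the first `n` paths: path number `l < n` goes from `b (σ l)` to `a (τ l)`, its vertices are
`p l 0, ..., p l (r l)`; `RR l` are the vertices reserved for it; `W` is the set of the vertices reserved
before -/
structure Sys (T : V → V → Prop) (m k n : ℕ) (a b : Fin m → V) (D EA EB W : Finset V)
    (σ τ : ℕ → Fin m) (r : ℕ → ℕ) (p : ℕ → ℕ → V) (RR : ℕ → Finset V) : Prop where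
  si : ∀ i < n, ∀ j < n, σ i = σ j → i = j
  ti : ∀ i < n, ∀ j < n, τ i = τ j → i = j
  r0 : ∀ l < n, 1 ≤ r l
  p0 : ∀ l < n, p l 0 = b (σ l)
  pr : ∀ l < n, p l (r l) = a (τ l)
  pe : ∀ l < n, ∀ s < r l, T (p l s) (p l (s + 1))
  pb : ∀ l < n, ∀ s s', s + 2 ≤ s' → s' ≤ r l → T (p l s') (p l s)
  pj : ∀ l < n, ∀ s ≤ r l, ∀ s' ≤ r l, p l s = p l s' → s = s'
  pD : ∀ l < n, ∀ s, 0 < s → s < r l → p l s ∉ D ∧ p l s ∉ W
  pp : ∀ l < n, ∀ l' < n, l ≠ l' → Disjoint (PP (r l) (p l)) (PP (r l') (p l'))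
  RD : ∀ l < n, Disjoint (RR l) (D ∪ W)
  dR : ∀ l < n, ∀ l' < n, l ≠ l' → Disjoint (RR l) (RR l')
  Rp : ∀ l < n, ∀ l' < n, Disjoint (RR l) (PP (r l') (p l'))
  Rc : ∀ l < n, (RR l).card ≤ 6 * k ^ 3
  clR : ∀ l < n, ∀ z ∈ RR l, Cl T EA EB (RR l) k z
  clP : ∀ l < n, ∀ s, 0 < s → s < r l → (s ≤ k ∨ r l ≤ s + k) → Cl T EA EB (RR l) k (p l s)

/-- the remaining vertices: outside `W`, outside the paths and their reserved vertices, and outside `D` except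
for the unused ends `a j`, `b j` -/
noncomputable def Rem {m : ℕ} (n : ℕ) (a b : Fin m → V) (D W : Finset V) (σ τ : ℕ → Fin m) (r : ℕ → ℕ)
    (p : ℕ → ℕ → V) (RR : ℕ → Finset V) : Finset V :=
  univ.filter fun v => (v ∉ D ∨ (∃ j, (∀ l < n, τ l ≠ j) ∧ v = a j) ∨ ∃ j, (∀ l < n, σ l ≠ j) ∧ v = b j) ∧
    v ∉ W ∧ ∀ l < n, v ∉ PP (r l) (p l) ∧ v ∉ RR l

/-- the invariants of the construction of the paths -/
structure Inv (T : V → V → Prop) (m k n : ℕ) (a b : Fin m → V) (D EA EB W : Finset V)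
    (σ τ : ℕ → Fin m) (r : ℕ → ℕ) (p : ℕ → ℕ → V) (RR : ℕ → Finset V) : Prop where
  sys : Sys T m k n a b D EA EB W σ τ r p RR
  conn : Conn T (8 * m + (m - n) * (4 + 6 * k ^ 3)) (Rem n a b D W σ τ r p RR)
  spA : ∀ z ∈ Rem n a b D W σ τ r p RR,
    8 * m * ∑ l ∈ range n, (inN T z ∩ PP (r l) (p l)).card ≤ n * (32 * m + (inN T z).card)
  spB : ∀ z ∈ Rem n a b D W σ τ r p RR,
    8 * m * ∑ l ∈ range n, (outN T z ∩ PP (r l) (p l)).card ≤ n * (32 * m + (outN T z).card)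

end defs

/-- SEL: vertices of low degree, for the tournament or its reverse. -/
def S_SEL : Prop := ∀ (V : Type) [Fintype V] (T : V → V → Prop) (X0 : Finset V) (m : ℕ), 1 ≤ m →
  X0.card + 2 * m ≤ Fintype.card V →
  (∃ XA XB δA δB, Lo T X0 m XA XB δA δB) ∨ ∃ XA XB δA δB, Lo (fun u v => T v u) X0 m XA XB δA δB

/-- DOM: a small set which dominates almost everything. -/
def S_DOM : Prop := ∀ (V : Type) [Fintype V] (T : V → V → Prop), Tour T → ∀ (U : Finset V) (v : V) (c : ℕ),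
  v ∈ U → 1 ≤ c → ∃ (A : Finset V) (a : V), A ⊆ U ∧ v ∈ A ∧ A.card ≤ c ∧ a ∈ A ∧ (∀ x ∈ A, x ≠ a → T a x) ∧
    2 ^ (c - 1) * ((U \ A).filter fun y => ∀ x ∈ A, T y x).card ≤ (inN T v).card

/-- FRM: all the dominating sets. -/
def S_FRM : Prop := ∀ (V : Type) [Fintype V] (T : V → V → Prop), Tour T → ∀ (X0 : Finset V) (m c : ℕ)
  (XA XB : Finset V) (δA δB : ℕ), 1 ≤ m → 8 * m ≤ 2 ^ (c - 1) → Lo T X0 m XA XB δA δB →
  ∃ (A B : Fin m → Finset V) (a b : Fin m → V) (D EA EB : Finset V),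
    Frame T X0 m A B a b D EA EB δA δB ∧ D.card ≤ X0.card + 2 * m * c

/-- CL: the closure of a small set. -/
def S_CL : Prop := ∀ (V : Type) [Fintype V] (T : V → V → Prop) (EA EB Q Y : Finset V) (k : ℕ), 1 ≤ k →
  (∀ z ∈ Y, k ≤ (inN T z \ (EA ∪ Q)).card) →
  (∀ z, (z ∈ Y ∨ z ∉ Q) → k ≤ (outN T z \ (EA ∪ EB ∪ Q)).card) →
  ∃ R : Finset V, Disjoint R Q ∧ R.card ≤ 3 * k ^ 2 * Y.card ∧ ∀ z ∈ Y ∪ R, Cl T EA EB R k z

/-- BUN: the reserved vertices for `D`. -/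
def S_BUN : Prop := ∀ (V : Type) [Fintype V] (T : V → V → Prop) (X0 : Finset V) (m k M : ℕ)
  (A B : Fin m → Finset V) (a b : Fin m → V) (D EA EB : Finset V) (δA δB : ℕ), 1 ≤ k →
  Frame T X0 m A B a b D EA EB δA δB → (∀ v, M ≤ (inN T v).card ∧ M ≤ (outN T v).card) →
  2 * (D.card * (1 + 8 * k ^ 3) + k) ≤ M → ∃ R : V → Finset V, Bun T D EA EB k R

/-- DIST: the distance function and a shortest path. -/
def S_DIST : Prop := ∀ (V : Type) [Fintype V] (T : V → V → Prop) (U S0 S1 : Finset V), Conn T 1 U →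
  S0 ⊆ U → S1 ⊆ U → S0.Nonempty → S1.Nonempty → Disjoint S0 S1 → ∃ d r p, Geo T U S0 S1 d r p

/-- CNT: a shortest path contains few neighbours of a vertex. -/
def S_CNT : Prop := ∀ (V : Type) [Fintype V] (T : V → V → Prop), Tour T → ∀ (U S0 S1 : Finset V) (d : V → ℕ)
  (r : ℕ) (p : ℕ → V) (M : ℕ), Geo T U S0 S1 d r p → Conn T M U → ∀ z ∈ U,
  M * (inN T z ∩ PP r p).card ≤ 4 * M + (inN T z).card ∧
  M * (outN T z ∩ PP r p).card ≤ 4 * M + (outN T z).card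

/-- REM: the deletion of a shortest path. -/
def S_REM : Prop := ∀ (V : Type) [Fintype V] (T : V → V → Prop), Tour T → ∀ (U S0 S1 : Finset V) (d : V → ℕ)
  (r : ℕ) (p : ℕ → V) (M : ℕ), Geo T U S0 S1 d r p → Conn T (M + 4) U → Conn T M (U \ PP r p)

/-- NEW: a new path with its reserved vertices. -/
def S_NEW : Prop := ∀ (V : Type) [Fintype V] (T : V → V → Prop), Tour T → ∀ (EA EB U S0 S1 : Finset V)
  (k N : ℕ), 1 ≤ k → 2 ≤ N → S0 ⊆ U → S1 ⊆ U → S0.Nonempty → S1.Nonempty → Disjoint S0 S1 →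
  Conn T (N + (4 + 6 * k ^ 3)) U →
  (∀ z ∈ U \ (S0 ∪ S1), 2 * ((inN T z ∩ (Uᶜ ∪ (S0 ∪ S1) ∪ EA)).card + k + 4) ≤ (inN T z).card) →
  (∀ z ∈ U \ (S0 ∪ S1), 2 * ((outN T z ∩ (Uᶜ ∪ (S0 ∪ S1) ∪ (EA ∪ EB))).card + k + 4) ≤ (outN T z).card) →
  ∃ (d : V → ℕ) (r : ℕ) (p : ℕ → V) (R : Finset V), Geo T U S0 S1 d r p ∧ R ⊆ U ∧
    Disjoint R (S0 ∪ S1 ∪ PP r p) ∧ R.card ≤ 6 * k ^ 3 ∧ (∀ z ∈ R, Cl T EA EB R k z) ∧
    (∀ s, 0 < s → s < r → (s ≤ k ∨ r ≤ s + k) → Cl T EA EB R k (p s)) ∧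
    Conn T N (U \ (PP r p ∪ R)) ∧
    ∀ z ∈ U, N * (inN T z ∩ PP r p).card ≤ 4 * N + (inN T z).card ∧
      N * (outN T z ∩ PP r p).card ≤ 4 * N + (outN T z).card

/-- STEP: the induction step of the construction of the paths. -/
def S_STEP : Prop := ∀ (V : Type) [Fintype V] (T : V → V → Prop), Tour T → ∀ (X0 : Finset V) (m k n M : ℕ)
  (A B : Fin m → Finset V) (a b : Fin m → V) (D EA EB W : Finset V) (δA δB : ℕ) (σ τ : ℕ → Fin m)
  (r : ℕ → ℕ) (p : ℕ → ℕ → V) (RR : ℕ → Finset V), 1 ≤ k → n < m →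
  Frame T X0 m A B a b D EA EB δA δB → Disjoint W D →
  (∀ v, M ≤ (inN T v).card ∧ M ≤ (outN T v).card) →
  8 * (D.card + W.card + 6 * k ^ 3 * m + 4 * m + k + 4) ≤ M →
  Inv T m k n a b D EA EB W σ τ r p RR →
  ∃ (σ' τ' : ℕ → Fin m) (r' : ℕ → ℕ) (p' : ℕ → ℕ → V) (RR' : ℕ → Finset V),
    Inv T m k (n + 1) a b D EA EB W σ' τ' r' p' RR'

/-- PATHS: all the paths. -/
def S_PATHS : Prop := ∀ (V : Type) [Fintype V] (T : V → V → Prop), Tour T → ∀ (X0 : Finset V) (m k M : ℕ)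
  (A B : Fin m → Finset V) (a b : Fin m → V) (D EA EB W : Finset V) (δA δB : ℕ), 1 ≤ k → 1 ≤ m →
  Frame T X0 m A B a b D EA EB δA δB → Disjoint W D →
  (∀ v, M ≤ (inN T v).card ∧ M ≤ (outN T v).card) → Conn T M univ →
  8 * (D.card + W.card + 6 * k ^ 3 * m + 4 * m + k + 4) ≤ M →
  ∃ (σ τ : ℕ → Fin m) (r : ℕ → ℕ) (p : ℕ → ℕ → V) (RR : ℕ → Finset V),
    Inv T m k m a b D EA EB W σ τ r p RR

/-- ROB: robust strong connectivity from `k` disjoint structures and two rank functions. -/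
def S_ROB : Prop := ∀ (V : Type) (T : V → V → Prop) (W : Finset V) (k : ℕ)
  (A B : Fin k → Finset V) (a b : Fin k → V) (P : Fin k → Finset V) (ρ ρ' : V → ℕ),
  (∀ l, A l ⊆ W ∧ B l ⊆ W ∧ P l ⊆ W) →
  (∀ l l', l ≠ l' → Disjoint (A l ∪ B l ∪ P l) (A l' ∪ B l' ∪ P l')) →
  (∀ l, a l ∈ A l ∧ b l ∈ B l) → (∀ l, ∀ x ∈ A l, x ≠ a l → T (a l) x) →
  (∀ l, ∀ x ∈ B l, x ≠ b l → T x (b l)) → (∀ l, Reach T (P l) (b l) (a l)) →
  (∀ v ∈ W, ρ v = 0 → ∀ l, ∃ x ∈ A l, T x v) →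
  (∀ v ∈ W, 0 < ρ v → k ≤ (W.filter fun u => T u v ∧ ρ u < ρ v).card) →
  (∀ v ∈ W, ρ' v = 0 → ∀ l, ∃ x ∈ B l, T v x) →
  (∀ v ∈ W, 0 < ρ' v → k ≤ (W.filter fun u => T v u ∧ ρ' u < ρ' v).card) →
  Conn T k W

/-- DEG: the degrees of a highly connected tournament. -/
def S_DEG : Prop := ∀ (V : Type) [Fintype V] (T : V → V → Prop) (M : ℕ), Tour T → M < Fintype.card V →
  Conn T M univ → ∀ v, M ≤ (inN T v).card ∧ M ≤ (outN T v).card

end Pool.Agent.N353.PT
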